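import Pool.Agent.V1194.TR.Erg
import Pool.Agent.V11299.FG.Main

/-!
# The extreme traces which violate the dichotomy, and exceptional measures
-/

set_option autoImplicit false

open MeasureTheory Filter Topology Finset
open scoped ComplexOrder ENNReal

namespace Pool.Agent.V1194.TR

open Pool.Agent.W763.Tr Pool.Agent.TH654.FC Pool.Agent.Y253.TR Pool.Agent.TH463.UQ
open Pool.Agent.V11299.FG

/-- the counterexamples: the extreme tracial states which are neither the regular trace nor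
conditionally finite-dimensional -/
def Bad (G : Subgroup (Equiv.Perm ℚ)) : Set (G → ℂ) :=
  {φ | φ ∈ Set.extremePoints ℝ {ψ : G → ℂ | ψ 1 = 1 ∧ (∀ g h : G, ψ (h * g * h⁻¹) = ψ g) ∧
      ∀ (s : Finset G) (c : G → ℂ), 0 ≤ ∑ i ∈ s, ∑ j ∈ s, star (c j) * c i * ψ (j⁻¹ * i)} ∧
    φ ≠ Set.indicator ({1} : Set G) (fun _ => (1 : ℂ)) ∧
    ¬ FiniteDimensional ℂ (Submodule.span ℂ {F : G → ℂ | ∃ n : G,
      (∃ r : ℚ, ∀ x : ℚ, (n : Equiv.Perm ℚ) x = x + r) ∧ F = fun x => φ (n * x)})}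

section

variable {s2 s3 t : Equiv.Perm ℚ} {G : Subgroup (Equiv.Perm ℚ)} {u : G}

lemma upow {τ : ℤ → G} (hτ : ∀ (k : ℤ) (x : ℚ), (τ k : Equiv.Perm ℚ) x = x + k)
    (hu : ∀ x : ℚ, (u : Equiv.Perm ℚ) x = x + 1) (m : ℤ) : u ^ m = τ m := by
  have h1 : u = τ 1 := by
    apply Subtype.ext
    apply Equiv.ext
    intro x
    rw [hu, hτ]; simp
  have h0 : τ 0 = 1 := tau_zero hτ
  induction m with
  | zero => rw [zpow_zero, h0]
  | succ n ih => rw [zpow_add_one, ih, h1, tau_add hτ]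
  | pred n ih => rw [zpow_sub_one, ih, h1, tau_inv hτ, tau_add hτ]; rfl

/-- a bad trace is the trace of an exceptional measure -/
theorem bad_measure (hs2 : ∀ x, s2 x = 2 * x) (hs3 : ∀ x, s3 x = 3 * x) (ht : ∀ x, t x = x + 1)
    (hG : G = Subgroup.closure {s2, s3, t}) (hu : ∀ x : ℚ, (u : Equiv.Perm ℚ) x = x + 1)
    {φ : G → ℂ} (hφ : φ ∈ Bad G) : ∃ μ : Measure UnitAddCircle, Exceptional 2 3 μ ∧
      φ = tr μ ∧ ∀ n : ℤ, φ (u ^ n) = ∫ x, (fourier n x : ℂ) ∂μ := by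
  obtain ⟨hext, hne, hfd⟩ := hφ
  obtain ⟨h1, hcl, hpd⟩ := hext.1
  obtain ⟨τ, S6, μ, D⟩ := data_of hs2 hs3 ht hG h1 hcl hpd
  have := D.prob
  rcases finite_or_atomless D hext with hfin | hat
  · exact absurd hfin hfd
  have hvol : μ ≠ volume := by
    intro hv
    apply hne
    have hz : ∀ n : ℤ, n ≠ 0 → φ (τ n) = 0 := by
      intro n hn
      rw [← D.hμ, hv]
      exact Pool.Agent.H769R3.integral_fourier_volume hn
    funext g
    by_cases hg : g = 1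
    · rw [hg, h1]
      simp
    · rw [eq_regular D.hτ D.h1 D.hcl D.hpd S6 D.hS6 D.hform hz g hg]
      simp [hg]
  refine ⟨μ, ⟨D.prob, D.mp2, D.mp3, hat, erg_of_extreme D hext hat, hvol⟩, eq_tr D hat,
    fun n => ?_⟩
  rw [D.hμ, upow D.hτ hu]

/-- the trace of an exceptional measure is bad -/
theorem bad_of_measure (hs2 : ∀ x, s2 x = 2 * x) (hs3 : ∀ x, s3 x = 3 * x)
    (ht : ∀ x, t x = x + 1) (hG : G = Subgroup.closure {s2, s3, t})
    (hu : ∀ x : ℚ, (u : Equiv.Perm ℚ) x = x + 1) {μ : Measure UnitAddCircle}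
    (h : Exceptional 2 3 μ) : (tr μ : G → ℂ) ∈ Bad G ∧
      ∀ n : ℤ, (tr μ : G → ℂ) (u ^ n) = ∫ x, (fourier n x : ℂ) ∂μ := by
  have := h.prob
  have hext := extreme_of_erg hs2 hs3 ht hG h.inv_p h.inv_q h.atomless h.ergodic
  obtain ⟨h1, hcl, hpd⟩ := hext.1
  obtain ⟨τ, S6, ρ, D⟩ := data_of hs2 hs3 ht hG h1 hcl hpd
  have := D.prob
  have hval : ∀ n : ℤ, (tr μ : G → ℂ) (τ n) = ∫ x, (fourier n x : ℂ) ∂μ := by
    intro n
    have hx : ∀ x, ((τ n : G) : Equiv.Perm ℚ) x = x + n / 6 ^ 0 := by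
      intro x; rw [D.hτ]; simp
    exact tr_trans h.inv_p h.inv_q hx
  have hρ : ρ = μ := Pool.Agent.W764.FB.ext_fourier fun n => by rw [D.hμ, hval]
  refine ⟨⟨hext, ?_, ?_⟩, fun n => by rw [upow D.hτ hu, hval]⟩
  · intro h0
    apply h.ne
    apply Pool.Agent.W764.FB.ext_fourier
    intro n
    by_cases hn : n = 0
    · subst hn; simp
    · rw [← hval, h0, Pool.Agent.H769R3.integral_fourier_volume hn, Set.indicator_of_notMem]
      intro h5
      have h6 : τ n = 1 := h5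
      have h7 := D.hτ n 0
      rw [h6] at h7
      simp at h7
      exact hn (by exact_mod_cast h7.symm)
  · intro hfd
    obtain ⟨M, hM1, hM⟩ := exists_kernel D.hτ D.hμ D.h2 hfd
    have hM0 : (M : ℤ) ≠ 0 := by exact_mod_cast (by omega : M ≠ 0)
    have h5 := avg_zero h.atomless hM0
    have h6 : ∀ n : ℕ, 1 ≤ n →
        ∫ x, ‖∑ i ∈ range n, (fourier ((M : ℤ) * i) x : ℂ)‖ ^ 2 / (n : ℝ) ^ 2 ∂μ = 1 := by
      intro n hn
      have h7 := sq_expand (μ := μ) (range n) (fun i : ℕ => (M : ℤ) * (i : ℤ))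
      have h8 : ∀ i j : ℕ, ∫ x, (fourier ((M : ℤ) * (i : ℤ) - (M : ℤ) * (j : ℤ)) x : ℂ) ∂μ = 1 := by
        intro i j
        rw [← hval, ← mul_sub, hM]
      simp only [h8] at h7
      rw [integral_div]
      have h9 : ∫ x, ‖∑ i ∈ range n, (fourier ((M : ℤ) * i) x : ℂ)‖ ^ 2 ∂μ = (n : ℝ) ^ 2 := by
        have : ((∫ x, ‖∑ i ∈ range n, (fourier ((M : ℤ) * i) x : ℂ)‖ ^ 2 ∂μ : ℝ) : ℂ) =
            (((n : ℝ) ^ 2 : ℝ) : ℂ) := by
          rw [← h7]
          simp [sq]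
        exact_mod_cast this
      rw [h9, div_self]
      have : (0 : ℝ) < n := by exact_mod_cast hn
      positivity
    have h7 : Tendsto (fun n : ℕ =>
        ∫ x, ‖∑ i ∈ range n, (fourier ((M : ℤ) * i) x : ℂ)‖ ^ 2 / (n : ℝ) ^ 2 ∂μ) atTop (𝓝 1) :=
      (tendsto_const_nhds (x := (1 : ℝ))).congr' (by
        filter_upwards [eventually_ge_atTop 1] with n hn
        exact (h6 n hn).symm)
    exact zero_ne_one (tendsto_nhds_unique h5 h7)

end

end Pool.Agent.V1194.TR
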