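import Pool.Agent.Y253.TR.Basic
import Pool.Agent.V11299.FG.Gal

/-!
# Extreme traces of `ℤ² ⋉ ℤ[1/6]` and jointly ergodic measures

An extreme tracial state which is not conditionally finite-dimensional is the trace of an atomless
jointly ergodic measure, and conversely.
-/

set_option autoImplicit false

open MeasureTheory Filter Topology Finset
open scoped ComplexOrder ENNReal

namespace Pool.Agent.V1194.TR

open Pool.Agent.W763.Tr Pool.Agent.TH654.FC Pool.Agent.Y253.TR Pool.Agent.TH463.UQ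
open Pool.Agent.V11299.FG

section avg

variable {μ : Measure UnitAddCircle} [IsProbabilityMeasure μ]

lemma fourier_pow (d : ℤ) (i : ℕ) (x : UnitAddCircle) :
    (fourier (d * i) x : ℂ) = (fourier d x : ℂ) ^ i := by
  rw [fourier_apply, fourier_apply, mul_comm, mul_smul, natCast_zsmul, AddCircle.toCircle_nsmul,
    Circle.coe_pow]

lemma norm_sum_pow_le (z : ℂ) (hz : ‖z‖ = 1) (h1 : z ≠ 1) (n : ℕ) :
    ‖∑ i ∈ range n, z ^ i‖ ≤ 2 / ‖z - 1‖ := by
  rw [geom_sum_eq h1 n, norm_div]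
  gcongr
  calc ‖z ^ n - 1‖ ≤ ‖z ^ n‖ + ‖(1 : ℂ)‖ := norm_sub_le _ _
    _ = 2 := by rw [norm_pow, hz]; norm_num

/-- the averages of the powers of a nontrivial character tend to zero -/
lemma avg_zero (hat : ∀ x, μ {x} = 0) {d : ℤ} (hd : d ≠ 0) :
    Tendsto (fun n : ℕ => ∫ x, ‖∑ i ∈ range n, (fourier (d * i) x : ℂ)‖ ^ 2 / (n : ℝ) ^ 2 ∂μ)
      atTop (𝓝 0) := by
  have h0 : (0 : ℝ) = ∫ _x : UnitAddCircle, (0 : ℝ) ∂μ := by simp
  rw [h0]
  have hn1 : ∀ x : UnitAddCircle, ‖(fourier d x : ℂ)‖ = 1 := fun x => norm_fourier_eq d x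
  refine tendsto_integral_of_dominated_convergence (fun _ => (1 : ℝ)) ?_ (integrable_const _) ?_ ?_
  · intro n
    exact (by fun_prop : Continuous fun x : UnitAddCircle =>
      ‖∑ i ∈ range n, (fourier (d * i) x : ℂ)‖ ^ 2 / (n : ℝ) ^ 2).aestronglyMeasurable
  · intro n
    refine Eventually.of_forall fun x => ?_
    rw [Real.norm_of_nonneg (by positivity)]
    rcases Nat.eq_zero_or_pos n with rfl | hn
    · simp
    · rw [div_le_one (by positivity)]
      have : ‖∑ i ∈ range n, (fourier (d * i) x : ℂ)‖ ≤ n := by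
        refine (norm_sum_le _ _).trans ?_
        simp
      exact pow_le_pow_left₀ (norm_nonneg _) this 2
  · have hnull : μ {x : UnitAddCircle | d.natAbs • x = 0} = 0 := by
      have h3 := finite_fibre (Int.natAbs_pos.2 hd) (0 : UnitAddCircle)
      rw [← Set.biUnion_of_singleton {x : UnitAddCircle | d.natAbs • x = 0}]
      exact (measure_biUnion_null_iff h3.countable).2 fun y _ => hat y
    have hae : ∀ᵐ x ∂μ, ¬ (d.natAbs • x = 0) := by
      rw [ae_iff]; simpa using hnull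
    filter_upwards [hae] with x hx
    have hz : (fourier d x : ℂ) ≠ 1 := by
      intro h
      apply hx
      have h5 : d • x = 0 := by
        rw [fourier_apply] at h
        have h6 : AddCircle.toCircle (d • x) = AddCircle.toCircle (0 : UnitAddCircle) := by
          rw [AddCircle.toCircle_zero]
          exact Circle.ext (by simpa using h)
        exact AddCircle.injective_toCircle one_ne_zero h6
      rcases Int.natAbs_eq d with h7 | h7
      · rw [h7, natCast_zsmul] at h5; exact h5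
      · rw [h7, neg_smul, natCast_zsmul, neg_eq_zero] at h5; exact h5
    have hb : ∀ n : ℕ, ‖∑ i ∈ range n, (fourier (d * i) x : ℂ)‖ ≤ 2 / ‖(fourier d x : ℂ) - 1‖ := by
      intro n
      simp only [fourier_pow]
      exact norm_sum_pow_le _ (hn1 x) hz n
    set B : ℝ := 2 / ‖(fourier d x : ℂ) - 1‖ with hB
    refine squeeze_zero (g := fun n : ℕ => B ^ 2 / (n : ℝ) ^ 2) (fun n => by positivity)
      (fun n => ?_) ?_
    · have := pow_le_pow_left₀ (norm_nonneg _) (hb n) 2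
      exact div_le_div_of_nonneg_right this (by positivity)
    · have h8 : Tendsto (fun n : ℕ => (n : ℝ) ^ 2) atTop atTop :=
        (tendsto_pow_atTop (two_ne_zero)).comp tendsto_natCast_atTop_atTop
      exact h8.const_div_atTop _

/-- the square of a sum of characters -/
lemma sq_expand {ι : Type*} (s : Finset ι) (N : ι → ℤ) :
    ∑ i ∈ s, ∑ j ∈ s, ∫ x, (fourier (N i - N j) x : ℂ) ∂μ =
      ((∫ x, ‖∑ i ∈ s, (fourier (N i) x : ℂ)‖ ^ 2 ∂μ : ℝ) : ℂ) := by
  have hi : ∀ m : ℤ, Integrable (fun x : UnitAddCircle => (fourier m x : ℂ)) μ := fun m =>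
    (by fun_prop : Continuous (fun x : UnitAddCircle =>
      (fourier m x : ℂ))).integrable_of_hasCompactSupport (HasCompactSupport.of_compactSpace _)
  have hsq : ∀ x : UnitAddCircle, ((‖∑ i ∈ s, (fourier (N i) x : ℂ)‖ ^ 2 : ℝ) : ℂ) =
      ∑ i ∈ s, ∑ j ∈ s, (fourier (N i - N j) x : ℂ) := by
    intro x
    have e1 : ((‖∑ i ∈ s, (fourier (N i) x : ℂ)‖ ^ 2 : ℝ) : ℂ) =
        (∑ i ∈ s, (fourier (N i) x : ℂ)) * starRingEnd ℂ (∑ i ∈ s, (fourier (N i) x : ℂ)) := by
      rw [Complex.mul_conj, Complex.normSq_eq_norm_sq]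
    rw [e1, map_sum, Finset.sum_mul]
    refine Finset.sum_congr rfl fun i _ => ?_
    rw [Finset.mul_sum]
    refine Finset.sum_congr rfl fun j _ => ?_
    rw [← fourier_neg, ← fourier_add, sub_eq_add_neg]
  rw [← integral_complex_ofReal]
  simp only [hsq]
  rw [integral_finsetSum]
  · refine Finset.sum_congr rfl fun i hi' => ?_
    rw [integral_finsetSum]
    intro j _
    exact hi _
  · intro i _
    exact integrable_finsetSum _ fun j _ => hi _

end avg

variable {G : Subgroup (Equiv.Perm ℚ)} {τ : ℤ → G} {φ : G → ℂ} {S6 : G} {μ : Measure UnitAddCircle}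

/-- a trace with an atomless measure vanishes off the translations -/
lemma off_zero (D : Data G τ φ S6 μ) (hat : ∀ x, μ {x} = 0) {g : G} (hg : lin g ≠ 1) :
    φ g = 0 := by
  have := D.prob
  have hτ := D.hτ
  obtain ⟨E, i1, i2, U, T, ξ, hξ, -, -⟩ := gns_class φ D.h1 D.hpd D.hcl
  have hnξ : ‖ξ‖ = 1 := by
    have h2 := @inner_self_eq_norm_sq_to_K ℂ E _ _ _ ξ
    have h3 := hξ 1
    rw [map_one, D.h1] at h3
    have h4 : inner ℂ ξ ((1 : E ≃ₗᵢ[ℂ] E) ξ) = inner ℂ ξ ξ := rfl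
    rw [h4, h2] at h3
    have h5 : ‖ξ‖ ^ 2 = 1 := by
      have : ((‖ξ‖ ^ 2 : ℝ) : ℂ) = ((1 : ℝ) : ℂ) := by push_cast; exact h3
      exact_mod_cast this
    have := norm_nonneg ξ
    nlinarith
  set lam : ℚ := lin g with hlam
  obtain ⟨g0, hx⟩ : ∃ g0 : ℚ, ∀ x, (g : Equiv.Perm ℚ) x = lam * x + g0 := ⟨_, aff D.hform g⟩
  have hd : (1 - lam).num ≠ 0 := by
    rw [Rat.num_ne_zero, sub_ne_zero]
    exact fun e => hg e.symm
  have hnum : (1 - lam) * (1 - lam).den = (1 - lam).num := Rat.mul_den_eq_num _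
  set v : ℤ := ((1 - lam).den : ℤ) with hv
  set d : ℤ := (1 - lam).num with hdd
  have hnum' : (1 - lam) * (v : ℚ) = d := by
    rw [hv]; push_cast; exact hnum
  have hconj : ∀ i : ℤ, φ (τ (d * i) * g) = φ g := by
    intro i
    have e : τ (v * i) * g * (τ (v * i))⁻¹ = τ (d * i) * g := by
      rw [mul_inv_eq_iff_eq_mul]
      apply Subtype.ext
      apply Equiv.ext
      intro x
      simp only [Subgroup.coe_mul, Equiv.Perm.mul_apply, hτ, hx]
      push_cast
      rw [← hnum']; ring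
    rw [← e, D.hcl]
  have hdiff : ∀ i j : ℤ, φ ((τ (d * j) * g)⁻¹ * (τ (d * i) * g)) =
      ∫ x, (fourier (d * i - d * j) x : ℂ) ∂μ := by
    intro i j
    have e : (τ (d * j) * g)⁻¹ * (τ (d * i) * g) = g⁻¹ * τ (d * i - d * j) * (g⁻¹)⁻¹ := by
      rw [mul_inv_rev, tau_inv hτ, inv_inv]
      have : τ (d * i - d * j) = τ (-(d * j)) * τ (d * i) := by
        rw [tau_add hτ]; congr 1; ring
      rw [this]
      simp only [mul_assoc]
    rw [e, D.hcl, D.hμ]
  have hle : ∀ n : ℕ, 1 ≤ n →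
      ‖φ g‖ ^ 2 ≤ ∫ x, ‖∑ i ∈ range n, (fourier (d * i) x : ℂ)‖ ^ 2 / (n : ℝ) ^ 2 ∂μ := by
    intro n hn
    set w : E := ∑ i ∈ range n, U (τ (d * i) * g) ξ with hw
    have h1 : inner ℂ ξ w = n * φ g := by
      rw [hw, inner_sum]
      simp only [hξ, hconj]
      simp
    have h2 : (n : ℝ) * ‖φ g‖ ≤ ‖w‖ := by
      have := norm_inner_le_norm (𝕜 := ℂ) ξ w
      rw [h1, hnξ, one_mul, norm_mul] at this
      simpa using this
    have h3 : ‖w‖ ^ 2 = ∫ x, ‖∑ i ∈ range n, (fourier (d * i) x : ℂ)‖ ^ 2 ∂μ := by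
      have h4 := @inner_self_eq_norm_sq_to_K ℂ E _ _ _ w
      have h5 : inner ℂ w w = ∑ i ∈ range n, ∑ j ∈ range n,
          ∫ x, (fourier (d * (i : ℤ) - d * (j : ℤ)) x : ℂ) ∂μ := by
        conv_lhs => rw [hw]
        rw [inner_sum]
        refine Finset.sum_congr rfl fun i _ => ?_
        rw [sum_inner]
        refine Finset.sum_congr rfl fun j _ => ?_
        rw [← hdiff, ← hξ]
        have h6 : U (τ (d * i) * g) ξ =
            U (τ (d * j) * g) (U ((τ (d * j) * g)⁻¹ * (τ (d * i) * g)) ξ) := by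
          have : U (τ (d * i) * g) = U (τ (d * j) * g) * U ((τ (d * j) * g)⁻¹ * (τ (d * i) * g)) := by
            rw [← map_mul]; congr 1; group
          rw [this]; rfl
        rw [h6, LinearIsometryEquiv.inner_map_map]
      rw [sq_expand (range n) (fun i : ℕ => d * (i : ℤ)), h4] at h5
      have : ((‖w‖ ^ 2 : ℝ) : ℂ) =
          ((∫ x, ‖∑ i ∈ range n, (fourier (d * i) x : ℂ)‖ ^ 2 ∂μ : ℝ) : ℂ) := by
        rw [← h5]; push_cast; rfl
      exact_mod_cast this
    have hn' : (0 : ℝ) < n := by exact_mod_cast hn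
    have h7 : ((n : ℝ) * ‖φ g‖) ^ 2 ≤ ‖w‖ ^ 2 := pow_le_pow_left₀ (by positivity) h2 2
    rw [h3] at h7
    rw [integral_div, le_div_iff₀ (by positivity)]
    linarith [h7, mul_pow (n : ℝ) ‖φ g‖ 2]
  have h0 : ‖φ g‖ ^ 2 ≤ 0 := ge_of_tendsto (avg_zero hat hd) (eventually_atTop.2 ⟨1, hle⟩)
  have : ‖φ g‖ = 0 := by
    have := norm_nonneg (φ g)
    nlinarith
  exact norm_eq_zero.1 this

/-- a trace with an atomless measure is the trace of this measure -/
lemma eq_tr (D : Data G τ φ S6 μ) (hat : ∀ x, μ {x} = 0) : φ = tr μ := by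
  have := D.prob
  funext g
  by_cases hg : lin g = 1
  · obtain ⟨a, b, -, h0⟩ := lin_spec D.hform g
    obtain ⟨n, k, hr⟩ := h0
    have hx : ∀ x, (g : Equiv.Perm ℚ) x = x + n / 6 ^ k := by
      intro x; rw [aff D.hform g x, hg, one_mul, hr]
    rw [tr_trans D.mp2 D.mp3 hx, D.hμ]
    exact phi_trans D.hτ D.hcl S6 D.hS6 g n k hx
  · rw [off_zero D hat hg]
    unfold tr
    rw [if_neg hg]

section cond

variable [IsProbabilityMeasure μ]

lemma cond_prob {A : Set UnitAddCircle} (h0 : μ A ≠ 0) :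
    IsProbabilityMeasure ((μ A)⁻¹ • μ.restrict A) := by
  refine ⟨?_⟩
  rw [Measure.smul_apply, Measure.restrict_apply MeasurableSet.univ, Set.univ_inter, smul_eq_mul,
    ENNReal.inv_mul_cancel h0 (measure_ne_top _ _)]

omit [IsProbabilityMeasure μ] in
lemma cond_mp {A : Set UnitAddCircle} (hA : MeasurableSet A) {p : ℕ}
    (hip : MeasurePreserving (fun x : UnitAddCircle => p • x) μ μ)
    (hAp : (fun x : UnitAddCircle => p • x) ⁻¹' A = A) :
    MeasurePreserving (fun x : UnitAddCircle => p • x) ((μ A)⁻¹ • μ.restrict A)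
      ((μ A)⁻¹ • μ.restrict A) := by
  have h := hip.restrict_preimage hA
  rw [hAp] at h
  exact Pool.Agent.H847R3.XpXq.mp_smul h _

lemma cond_split {A : Set UnitAddCircle} (hA : MeasurableSet A) (h0 : μ A ≠ 0) (h1 : μ Aᶜ ≠ 0)
    (n : ℤ) : ∫ x, (fourier n x : ℂ) ∂μ =
      ((μ A).toReal : ℂ) * ∫ x, (fourier n x : ℂ) ∂((μ A)⁻¹ • μ.restrict A) +
      ((μ Aᶜ).toReal : ℂ) * ∫ x, (fourier n x : ℂ) ∂((μ Aᶜ)⁻¹ • μ.restrict Aᶜ) := by
  have hi : Integrable (fun x : UnitAddCircle => (fourier n x : ℂ)) μ :=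
    (by fun_prop : Continuous (fun x : UnitAddCircle =>
      (fourier n x : ℂ))).integrable_of_hasCompactSupport (HasCompactSupport.of_compactSpace _)
  have key : ∀ B : Set UnitAddCircle, μ B ≠ 0 →
      ((μ B).toReal : ℂ) * ∫ x, (fourier n x : ℂ) ∂((μ B)⁻¹ • μ.restrict B) =
        ∫ x in B, (fourier n x : ℂ) ∂μ := by
    intro B hB
    rw [integral_smul_measure, ENNReal.toReal_inv, Complex.real_smul, ← mul_assoc]
    have : ((μ B).toReal : ℂ) ≠ 0 := by
      exact_mod_cast (ENNReal.toReal_pos hB (measure_ne_top _ _)).ne'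
    push_cast
    rw [mul_inv_cancel₀ this, one_mul]
  rw [key A h0, key Aᶜ h1]
  exact (integral_add_compl hA hi).symm

lemma tr_split {A : Set UnitAddCircle} (hA : MeasurableSet A) (h0 : μ A ≠ 0) (h1 : μ Aᶜ ≠ 0)
    (g : G) : tr μ g = (μ A).toReal • tr ((μ A)⁻¹ • μ.restrict A) g +
      (μ Aᶜ).toReal • tr ((μ Aᶜ)⁻¹ • μ.restrict Aᶜ) g := by
  unfold tr
  split_ifs with hl
  · unfold F
    split_ifs with h
    · rw [cond_split hA h0 h1, Complex.real_smul, Complex.real_smul]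
    · simp
  · simp

end cond

/-- **Extreme traces with atomless measures have jointly ergodic measures.** -/
lemma erg_of_extreme (D : Data G τ φ S6 μ) (hext : φ ∈ Set.extremePoints ℝ (TS G))
    (hat : ∀ x, μ {x} = 0) : JointlyErgodic 2 3 μ := by
  have := D.prob
  intro A hA h2 h3
  by_contra hcon
  push Not at hcon
  obtain ⟨h0, h1⟩ := hcon
  have h0' : μ Aᶜ ≠ 0 := fun h => h1 ((prob_compl_eq_zero_iff hA).1 h)
  have h2' : (fun x : UnitAddCircle => 2 • x) ⁻¹' Aᶜ = Aᶜ := by rw [Set.preimage_compl, h2]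
  have h3' : (fun x : UnitAddCircle => 3 • x) ⁻¹' Aᶜ = Aᶜ := by rw [Set.preimage_compl, h3]
  have pα := cond_prob h0
  have pβ := cond_prob h0'
  have mα2 := cond_mp hA D.mp2 h2
  have mα3 := cond_mp hA D.mp3 h3
  have mβ2 := cond_mp hA.compl D.mp2 h2'
  have mβ3 := cond_mp hA.compl D.mp3 h3'
  have hsum : (μ A).toReal + (μ Aᶜ).toReal = 1 := by
    have := prob_add_prob_compl (μ := μ) hA
    rw [← ENNReal.toReal_add (measure_ne_top _ _) (measure_ne_top _ _), this]
    simp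
  have e1 : (μ A).toReal • (tr ((μ A)⁻¹ • μ.restrict A) : G → ℂ) +
      (μ Aᶜ).toReal • (tr ((μ Aᶜ)⁻¹ • μ.restrict Aᶜ) : G → ℂ) = φ := by
    funext g
    rw [eq_tr D hat]
    exact (tr_split hA h0 h0' g).symm
  have hα : (tr ((μ A)⁻¹ • μ.restrict A) : G → ℂ) ∈ TS G :=
    ⟨tr_one mα2 mα3, tr_class D.hform mα2 mα3, tr_pd D.hform mα2 mα3⟩
  have hβ : (tr ((μ Aᶜ)⁻¹ • μ.restrict Aᶜ) : G → ℂ) ∈ TS G :=
    ⟨tr_one mβ2 mβ3, tr_class D.hform mβ2 mβ3, tr_pd D.hform mβ2 mβ3⟩
  have hm := (mem_extremePoints.1 hext).2 _ hα _ hβ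
    ⟨_, _, ENNReal.toReal_pos h0 (measure_ne_top _ _), ENNReal.toReal_pos h0' (measure_ne_top _ _),
      hsum, e1⟩
  have hfc : ∀ n : ℤ, ∫ x, (fourier n x : ℂ) ∂((μ A)⁻¹ • μ.restrict A) =
      ∫ x, (fourier n x : ℂ) ∂μ := by
    intro n
    have hx : ∀ x, ((τ n : G) : Equiv.Perm ℚ) x = x + n / 6 ^ 0 := by
      intro x; rw [D.hτ]; simp
    rw [← tr_trans mα2 mα3 hx, hm.1, D.hμ]
  have heq : (μ A)⁻¹ • μ.restrict A = μ := Pool.Agent.W764.FB.ext_fourier hfc
  have h5 : ((μ A)⁻¹ • μ.restrict A) Aᶜ = 0 := by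
    rw [Measure.smul_apply, Measure.restrict_apply hA.compl]
    simp
  rw [heq] at h5
  exact h0' h5

/-- invariant measures absolutely continuous with respect to a jointly ergodic one -/
lemma eq_of_ac {p q : ℕ} {ν ρ : Measure UnitAddCircle} [IsProbabilityMeasure ν]
    [IsProbabilityMeasure ρ] (hνp : MeasurePreserving (fun x : UnitAddCircle => p • x) ν ν)
    (hνq : MeasurePreserving (fun x : UnitAddCircle => q • x) ν ν) (he : JointlyErgodic p q ν)
    (hρp : MeasurePreserving (fun x : UnitAddCircle => p • x) ρ ρ)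
    (hρq : MeasurePreserving (fun x : UnitAddCircle => q • x) ρ ρ) (hac : ρ ≪ ν) : ρ = ν := by
  have hp := hρp.rnDeriv_comp_aeEq hνp
  have hq := hρq.rnDeriv_comp_aeEq hνq
  haveI : ρ.HaveLebesgueDecomposition ν := Measure.haveLebesgueDecomposition_of_sigmaFinite ρ ν
  have hρ := Measure.withDensity_rnDeriv_eq ρ ν hac
  have hB : MeasurableSet {x | ρ.rnDeriv ν x < 1} :=
    Measure.measurable_rnDeriv ρ ν measurableSet_Iio
  have h01 := ae_erg hνp hνq he hB (by
    filter_upwards [hp] with x hx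
    have hx' : ρ.rnDeriv ν (p • x) = ρ.rnDeriv ν x := hx
    simp only [Set.mem_ofPred_eq, hx']) (by
    filter_upwards [hq] with x hx
    have hx' : ρ.rnDeriv ν (q • x) = ρ.rnDeriv ν x := hx
    simp only [Set.mem_ofPred_eq, hx'])
  have hu : ρ Set.univ = ν Set.univ := by rw [measure_univ, measure_univ]
  rcases h01 with h | h
  · have h1 : ν ≤ ρ := by
      rw [← hρ]
      calc ν = ν.withDensity 1 := withDensity_one.symm
        _ ≤ _ := by
          refine withDensity_mono ?_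
          have : ∀ᵐ x ∂ν, ¬ (ρ.rnDeriv ν x < 1) := by rw [ae_iff]; simpa using h
          filter_upwards [this] with x hx
          exact not_lt.1 hx
    exact (Measure.eq_of_le_of_measure_univ_eq h1 hu.symm).symm
  · have h1 : ρ ≤ ν := by
      calc ρ = ν.withDensity (ρ.rnDeriv ν) := hρ.symm
        _ ≤ ν.withDensity 1 := by
          refine withDensity_mono ?_
          have h2 : ν {x | ρ.rnDeriv ν x < 1}ᶜ = 0 := (prob_compl_eq_zero_iff hB).2 h
          have : ∀ᵐ x ∂ν, ρ.rnDeriv ν x < 1 := by rw [ae_iff]; exact h2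
          filter_upwards [this] with x hx
          exact hx.le
        _ = ν := withDensity_one
    exact Measure.eq_of_le_of_measure_univ_eq h1 hu

/-- the data of a trace determine the translations -/
lemma tau_unique {τ' : ℤ → G} (h : ∀ (k : ℤ) (x : ℚ), (τ k : Equiv.Perm ℚ) x = x + k)
    (h' : ∀ (k : ℤ) (x : ℚ), (τ' k : Equiv.Perm ℚ) x = x + k) (k : ℤ) : τ k = τ' k := by
  apply Subtype.ext
  apply Equiv.ext
  intro x
  rw [h, h']

/-- **The trace of an atomless jointly ergodic measure is extreme.** -/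
lemma extreme_of_erg {s2 s3 t : Equiv.Perm ℚ} (hs2 : ∀ x, s2 x = 2 * x) (hs3 : ∀ x, s3 x = 3 * x)
    (ht : ∀ x, t x = x + 1) (hG : G = Subgroup.closure {s2, s3, t}) {ν : Measure UnitAddCircle}
    [IsProbabilityMeasure ν] (h2 : MeasurePreserving (fun x : UnitAddCircle => 2 • x) ν ν)
    (h3 : MeasurePreserving (fun x : UnitAddCircle => 3 • x) ν ν) (hat : ∀ x, ν {x} = 0)
    (he : JointlyErgodic 2 3 ν) : (tr ν : G → ℂ) ∈ Set.extremePoints ℝ (TS G) := by
  have hform : ∀ g : G, ∃ (a b : ℤ) (r : ℚ), Six r ∧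
      ∀ x, (g : Equiv.Perm ℚ) x = 2 ^ a * 3 ^ b * x + r := fun g =>
    form hs2 hs3 ht g (by rw [← hG]; exact g.2)
  have hT : (tr ν : G → ℂ) ∈ TS G := ⟨tr_one h2 h3, tr_class hform h2 h3, tr_pd hform h2 h3⟩
  have key : ∀ x1 ∈ TS G, ∀ x2 ∈ TS G, ∀ a b : ℝ, 0 < a → 0 < b → a + b = 1 →
      a • x1 + b • x2 = (tr ν : G → ℂ) → x1 = tr ν := by
    intro x1 hx1 x2 hx2 a b ha hb hab hsum
    obtain ⟨τ1, S1, μ1, D1⟩ := data_of hs2 hs3 ht hG hx1.1 hx1.2.1 hx1.2.2
    obtain ⟨τ2, S2, μ2, D2⟩ := data_of hs2 hs3 ht hG hx2.1 hx2.2.1 hx2.2.2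
    have p1 := D1.prob
    have p2 := D2.prob
    have hfc : ∀ n : ℤ, ∫ x, (fourier n x : ℂ) ∂(ENNReal.ofReal a • μ1 + ENNReal.ofReal b • μ2) =
        ∫ x, (fourier n x : ℂ) ∂ν := by
      intro n
      have hx : ∀ x, ((τ1 n : G) : Equiv.Perm ℚ) x = x + n / 6 ^ 0 := by
        intro x; rw [D1.hτ]; simp
      have hi : ∀ (ρ : Measure UnitAddCircle) [IsFiniteMeasure ρ],
          Integrable (fun x : UnitAddCircle => (fourier n x : ℂ)) ρ := fun ρ _ =>
        (by fun_prop : Continuous (fun x : UnitAddCircle =>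
          (fourier n x : ℂ))).integrable_of_hasCompactSupport (HasCompactSupport.of_compactSpace _)
      rw [← tr_trans h2 h3 hx, ← hsum]
      simp only [Pi.add_apply, Pi.smul_apply]
      rw [← D1.hμ, tau_unique D1.hτ D2.hτ n, ← D2.hμ]
      rw [integral_add_measure ((hi μ1).smul_measure ENNReal.ofReal_ne_top)
        ((hi μ2).smul_measure ENNReal.ofReal_ne_top), integral_smul_measure, integral_smul_measure,
        ENNReal.toReal_ofReal ha.le, ENNReal.toReal_ofReal hb.le]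
    haveI : IsFiniteMeasure (ENNReal.ofReal a • μ1 + ENNReal.ofReal b • μ2) := by
      refine ⟨?_⟩
      simp only [Measure.coe_add, Measure.coe_smul, Pi.add_apply, Pi.smul_apply, measure_univ,
        smul_eq_mul, mul_one]
      exact ENNReal.add_lt_top.2 ⟨ENNReal.ofReal_lt_top, ENNReal.ofReal_lt_top⟩
    have heq := Pool.Agent.W764.FB.ext_fourier hfc
    have hac : μ1 ≪ ν := by
      rw [← heq]
      intro s hs
      simp only [Measure.coe_add, Measure.coe_smul, Pi.add_apply, Pi.smul_apply, smul_eq_mul,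
        add_eq_zero, mul_eq_zero, ENNReal.ofReal_eq_zero] at hs
      rcases hs.1 with h | h
      · exact absurd h (not_le.2 ha)
      · exact h
    have h5 : μ1 = ν := eq_of_ac h2 h3 he D1.mp2 D1.mp3 hac
    have h6 : ∀ x, μ1 {x} = 0 := by rw [h5]; exact hat
    rw [eq_tr D1 h6, h5]
  refine mem_extremePoints.2 ⟨hT, fun x1 hx1 x2 hx2 ⟨a, b, ha, hb, hab, hsum⟩ => ?_⟩
  refine ⟨key x1 hx1 x2 hx2 a b ha hb hab hsum, key x2 hx2 x1 hx1 b a hb ha (by linarith) ?_⟩
  rw [add_comm]; exact hsum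

end Pool.Agent.V1194.TR
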